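import Mathlib
import Pool.Agent.helper18.HG.Spec

/-! Project HG, row UNB (helper76, second hand of helper26's row). -/

set_option autoImplicit false

open Finset

namespace Pool.Agent.helper18.HG

private lemma UNB_free (k m : ℕ) (hk : 3 ≤ k) : APFree k ((range m).image fun i => 2 ^ i) := by
  intro a q hq
  by_contra hc
  push Not at hc
  have h0 := hc 0 (by omega)
  have h1 := hc 1 (by omega)
  have h2 := hc 2 (by omega)
  simp only [mem_image, mem_range] at h0 h1 h2
  obtain ⟨x, -, hx⟩ := h0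
  obtain ⟨y, -, hy⟩ := h1
  obtain ⟨z, -, hz⟩ := h2
  have hxy : x < y := by
    rw [← Nat.pow_lt_pow_iff_right (a := 2) (by norm_num)]
    omega
  have hxz : x < z := by
    rw [← Nat.pow_lt_pow_iff_right (a := 2) (by norm_num)]
    omega
  have e : 2 ^ x + 2 ^ z = 2 * 2 ^ y := by omega
  obtain ⟨u, rfl⟩ := Nat.exists_eq_add_of_lt hxy
  obtain ⟨v, rfl⟩ := Nat.exists_eq_add_of_lt hxz
  have hp : 0 < 2 ^ x := by positivity
  have e2 : 2 ^ x * (1 + 2 * 2 ^ v) = 2 ^ x * (2 * (2 * 2 ^ u)) := by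
    have a1 : 2 ^ (x + v + 1) = 2 ^ x * (2 * 2 ^ v) := by ring
    have a2 : 2 ^ (x + u + 1) = 2 ^ x * (2 * 2 ^ u) := by ring
    rw [a1, a2] at e
    linarith
  have e3 := Nat.eq_of_mul_eq_mul_left hp e2
  omega

theorem UNB (hRKB : RKB_stmt) : UNB_stmt := by
  intro k m hk
  obtain ⟨-, hle, -, -, -⟩ := hRKB k (by omega)
  have h := hle (2 ^ m) ((range m).image fun i => 2 ^ i) ?_ (UNB_free k m hk)
  · rwa [card_image_of_injective _ (Nat.pow_right_injective le_rfl), card_range] at h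
  · intro x hx
    rw [mem_image] at hx
    obtain ⟨i, hi, rfl⟩ := hx
    rw [mem_range] at hi ⊢
    exact Nat.pow_lt_pow_right (by norm_num) hi

end Pool.Agent.helper18.HG
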